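import Pool.Agent.H34.FQ.Targets

/-!
# CU1: many disjoint cubes on which the form is small
-/

set_option autoImplicit false

open Finset Pool.Agent.H32.RQ Pool.Agent.H34.FQ

namespace Pool.Agent.H4.HFQ

lemma qf_bd {s : ℕ} (f : Mon s → ℝ) {G R : ℝ} (hG : 0 ≤ G) (hR : 0 ≤ R) (hf : ∀ p, |f p| ≤ G)
    {z : Fin s → ℝ} (hz : ∀ j, |z j| ≤ R) : |qf f z| ≤ md s * (G * R ^ 2) := by
  unfold qf
  refine (Finset.abs_sum_le_sum_abs _ _).trans ?_
  refine (Finset.sum_le_card_nsmul _ _ (G * R ^ 2) (fun p _ => ?_)).trans ?_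
  · rw [abs_mul, abs_mul, pow_two]
    exact mul_le_mul (hf p) (mul_le_mul (hz _) (hz _) (abs_nonneg _) hR) (by positivity) hG
  · rw [nsmul_eq_mul, Finset.card_univ]

lemma qf_lip {s : ℕ} (f : Mon s → ℝ) {G R d : ℝ} (hG : 0 ≤ G) (hR : 0 ≤ R) (hd : 0 ≤ d)
    (hf : ∀ p, |f p| ≤ G) {z u : Fin s → ℝ} (hz : ∀ j, |z j| ≤ R) (hu : ∀ j, |u j| ≤ R)
    (hzu : ∀ j, |z j - u j| ≤ d) : |qf f z - qf f u| ≤ md s * (G * (2 * R * d)) := by
  unfold qf
  rw [← Finset.sum_sub_distrib]
  refine (Finset.abs_sum_le_sum_abs _ _).trans ?_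
  refine (Finset.sum_le_card_nsmul _ _ (G * (2 * R * d)) (fun p _ => ?_)).trans ?_
  · have h1 : f p * (z p.1.1 * z p.1.2) - f p * (u p.1.1 * u p.1.2) =
        f p * (z p.1.1 * (z p.1.2 - u p.1.2) + (z p.1.1 - u p.1.1) * u p.1.2) := by ring
    rw [h1, abs_mul]
    refine mul_le_mul (hf p) ?_ (abs_nonneg _) hG
    refine (abs_add_le _ _).trans ?_
    rw [abs_mul, abs_mul]
    have h3 : |z p.1.1| * |z p.1.2 - u p.1.2| ≤ R * d :=
      mul_le_mul (hz _) (hzu _) (abs_nonneg _) hR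
    have h4 : |z p.1.1 - u p.1.1| * |u p.1.2| ≤ d * R :=
      mul_le_mul (hzu _) (hu _) (abs_nonneg _) hd
    linarith
  · rw [nsmul_eq_mul, Finset.card_univ]

/-- the size of a matrix -/
noncomputable def msz {s : ℕ} (T : Matrix (Fin s) (Fin s) ℤ) : ℝ := ∑ i, ∑ j, |(T i j : ℝ)|

lemma msz_nonneg {s : ℕ} (T : Matrix (Fin s) (Fin s) ℤ) : 0 ≤ msz T := by
  unfold msz
  positivity

lemma mv_bd {s : ℕ} (T : Matrix (Fin s) (Fin s) ℤ) {R : ℝ} (hR : 0 ≤ R) {x : Fin s → ℝ}
    (hx : ∀ j, |x j| ≤ R) (i : Fin s) : |mv T x i| ≤ msz T * R := by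
  unfold mv msz
  calc |∑ j, (T i j : ℝ) * x j| ≤ ∑ j, |(T i j : ℝ) * x j| := Finset.abs_sum_le_sum_abs _ _
    _ ≤ ∑ j, |(T i j : ℝ)| * R := by
        apply Finset.sum_le_sum
        intro j _
        rw [abs_mul]
        exact mul_le_mul_of_nonneg_left (hx j) (abs_nonneg _)
    _ = (∑ j, |(T i j : ℝ)|) * R := by rw [Finset.sum_mul]
    _ ≤ (∑ i, ∑ j, |(T i j : ℝ)|) * R := by
        apply mul_le_mul_of_nonneg_right _ hR
        exact Finset.single_le_sum (f := fun i => ∑ j, |(T i j : ℝ)|) (fun i _ => by positivity)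
          (Finset.mem_univ i)

lemma mv_sub {s : ℕ} (T : Matrix (Fin s) (Fin s) ℤ) (x y : Fin s → ℝ) (i : Fin s) :
    mv T x i - mv T y i = mv T (fun j => x j - y j) i := by
  unfold mv
  rw [← Finset.sum_sub_distrib]
  exact Finset.sum_congr rfl fun j _ => by ring

variable {n : ℕ} {F : Mon (n + 2) → ℤ}

/-- the size of the coefficients of `q` -/
noncomputable def qsz (N : NF F) : ℝ := ∑ p, |(N.q p : ℝ)|

lemma qsz_nonneg (N : NF F) : 0 ≤ qsz N := by
  unfold qsz
  positivity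

lemma le_qsz (N : NF F) (p : Mon (n + 1)) : |cf ℝ N.q p| ≤ qsz N := by
  unfold qsz cf
  exact Finset.single_le_sum (f := fun p => |(N.q p : ℝ)|) (fun p _ => abs_nonneg _)
    (Finset.mem_univ p)

lemma cv_bd {R : ℝ} {z : Fin n → ℝ} (hz : ∀ j, |z j| ≤ R) (hR : 0 ≤ R) (j : Fin (n + 1)) :
    |cv 1 z j| ≤ 1 + R := by
  refine Fin.cases ?_ (fun i => ?_) j
  · simp only [cv, Fin.cons_zero, abs_one]
    linarith
  · simp only [cv, Fin.cons_succ]
    linarith [hz i]

lemma cv_sub {d : ℝ} {z u : Fin n → ℝ} (hz : ∀ j, |z j - u j| ≤ d) (hd : 0 ≤ d)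
    (j : Fin (n + 1)) : |cv 1 z j - cv 1 u j| ≤ d := by
  refine Fin.cases ?_ (fun i => ?_) j
  · simp only [cv, Fin.cons_zero, sub_self, abs_zero]
    exact hd
  · simp only [cv, Fin.cons_succ]
    exact hz i

/-- the bound for the coordinates of the point in the normal form -/
noncomputable def Rb (N : NF F) (R : ℝ) : ℝ :=
  |(N.mu : ℝ)| * (1 + R) + md (n + 1) * (qsz N * (1 + R) ^ 2)

lemma Rb_nonneg (N : NF F) {R : ℝ} (hR : 0 ≤ R) : 0 ≤ Rb N R := by
  have := qsz_nonneg N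
  unfold Rb
  positivity

lemma pt_bd (N : NF F) {R : ℝ} {z : Fin n → ℝ} (hz : ∀ j, |z j| ≤ R) (hR : 0 ≤ R)
    (j : Fin (n + 2)) :
    |pt ((N.mu : ℝ) * 1 ^ 2) (-qf (cf ℝ N.q) (cv 1 z)) (fun i => (N.mu : ℝ) * 1 * z i) j| ≤
      Rb N R := by
  have hq := qsz_nonneg N
  have h0 : 0 ≤ |(N.mu : ℝ)| := abs_nonneg _
  have h1 : 0 ≤ (md (n + 1) : ℝ) * (qsz N * (1 + R) ^ 2) := by positivity
  have h2 : 0 ≤ |(N.mu : ℝ)| * R := by positivity
  unfold pt Rb
  refine Fin.cases ?_ (fun j => Fin.cases ?_ (fun i => ?_) j) j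
  · simp only [Fin.cons_zero, one_pow, mul_one]
    linarith
  · simp only [Fin.cons_succ, Fin.cons_zero, abs_neg]
    have h3 := qf_bd (cf ℝ N.q) hq (by linarith : (0 : ℝ) ≤ 1 + R) (le_qsz N) (cv_bd hz hR)
    have h4 : 0 ≤ |(N.mu : ℝ)| * (1 + R) := by positivity
    linarith
  · simp only [Fin.cons_succ, mul_one]
    rw [abs_mul]
    have h3 : |(N.mu : ℝ)| * |z i| ≤ |(N.mu : ℝ)| * R := mul_le_mul_of_nonneg_left (hz i) h0
    linarith

/-- the Lipschitz constant for the coordinates of the point in the normal form -/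
noncomputable def Lb (N : NF F) (R : ℝ) : ℝ :=
  |(N.mu : ℝ)| + md (n + 1) * (qsz N * (2 * (1 + R)))

lemma Lb_nonneg (N : NF F) {R : ℝ} (hR : 0 ≤ R) : 0 ≤ Lb N R := by
  have := qsz_nonneg N
  unfold Lb
  positivity

lemma pt_sub (N : NF F) {R d : ℝ} {z u : Fin n → ℝ} (hz : ∀ j, |z j| ≤ R) (hu : ∀ j, |u j| ≤ R)
    (hR : 0 ≤ R) (hd : 0 ≤ d) (hzu : ∀ j, |z j - u j| ≤ d) (j : Fin (n + 2)) :
    |pt ((N.mu : ℝ) * 1 ^ 2) (-qf (cf ℝ N.q) (cv 1 z)) (fun i => (N.mu : ℝ) * 1 * z i) j -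
      pt ((N.mu : ℝ) * 1 ^ 2) (-qf (cf ℝ N.q) (cv 1 u)) (fun i => (N.mu : ℝ) * 1 * u i) j| ≤
      Lb N R * d := by
  have hq := qsz_nonneg N
  have h0 : 0 ≤ |(N.mu : ℝ)| := abs_nonneg _
  have h1 : 0 ≤ (md (n + 1) : ℝ) * (qsz N * (2 * (1 + R))) * d := by positivity
  have h2 : 0 ≤ |(N.mu : ℝ)| * d := by positivity
  unfold pt Lb
  rw [add_mul]
  refine Fin.cases ?_ (fun j => Fin.cases ?_ (fun i => ?_) j) j
  · simp only [Fin.cons_zero, sub_self, abs_zero]
    linarith
  · simp only [Fin.cons_succ, Fin.cons_zero]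
    have h3 := qf_lip (cf ℝ N.q) hq (by linarith : (0 : ℝ) ≤ 1 + R) hd (le_qsz N) (cv_bd hz hR)
      (cv_bd hu hR) (cv_sub hzu hd)
    rw [neg_sub_neg, abs_sub_comm]
    calc _ ≤ _ := h3
      _ = (md (n + 1) : ℝ) * (qsz N * (2 * (1 + R))) * d := by ring
      _ ≤ _ := by linarith
  · simp only [Fin.cons_succ, mul_one]
    rw [← mul_sub, abs_mul]
    have h3 : |(N.mu : ℝ)| * |z i - u i| ≤ |(N.mu : ℝ)| * d :=
      mul_le_mul_of_nonneg_left (hzu i) h0
    linarith

/-- the form is Lipschitz in the chart -/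
lemma gG_lip (N : NF F) {R : ℝ} (hR : 0 ≤ R) : ∃ L : ℝ, 0 < L ∧
    ∀ (f : Mon (n + 2) → ℝ) (z u : Fin n → ℝ) (d : ℝ), (∀ p, |f p| ≤ 1) → (∀ j, |z j| ≤ R) →
    (∀ j, |u j| ≤ R) → 0 ≤ d → (∀ j, |z j - u j| ≤ d) →
    |gG N f 1 z - gG N f 1 u| ≤ L * d := by
  have hm := msz_nonneg N.T
  have hr := Rb_nonneg N hR
  have hl := Lb_nonneg N hR
  refine ⟨md (n + 2) * (1 * (2 * (msz N.T * Rb N R) * (msz N.T * Lb N R))) + 1, by positivity, ?_⟩
  intro f z u d hf hz hu hd hzu
  unfold gG xt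
  have h1 := qf_lip f zero_le_one (by positivity : 0 ≤ msz N.T * Rb N R)
    (by positivity : 0 ≤ msz N.T * (Lb N R * d)) hf
    (mv_bd N.T hr (pt_bd N hz hR)) (mv_bd N.T hr (pt_bd N hu hR)) (fun j => by
      rw [mv_sub]
      exact mv_bd N.T (by positivity) (pt_sub N hz hu hR hd hzu) j)
  calc _ ≤ _ := h1
    _ = (md (n + 2) * (1 * (2 * (msz N.T * Rb N R) * (msz N.T * Lb N R)))) * d := by ring
    _ ≤ _ := by
        apply mul_le_mul_of_nonneg_right _ hd
        linarith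

lemma cont_gG (N : NF F) (f : Mon (n + 2) → ℝ) (γ : ℝ → Fin n → ℝ)
    (hγ : ∀ j, Continuous fun t => γ t j) : Continuous fun t => gG N f 1 (γ t) := by
  have h1 : ∀ j : Fin (n + 1), Continuous fun t => cv 1 (γ t) j := by
    intro j
    refine Fin.cases ?_ (fun i => ?_) j
    · simp only [cv, Fin.cons_zero]
      exact continuous_const
    · simp only [cv, Fin.cons_succ]
      exact hγ i
  have h2 : Continuous fun t => qf (cf ℝ N.q) (cv 1 (γ t)) := by
    unfold qf
    refine continuous_finsetSum _ fun p _ => ?_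
    exact continuous_const.mul ((h1 _).mul (h1 _))
  have h3 : ∀ j : Fin (n + 2), Continuous fun t =>
      pt ((N.mu : ℝ) * 1 ^ 2) (-qf (cf ℝ N.q) (cv 1 (γ t))) (fun i => (N.mu : ℝ) * 1 * γ t i) j := by
    intro j
    unfold pt
    refine Fin.cases ?_ (fun j => Fin.cases ?_ (fun i => ?_) j) j
    · simp only [Fin.cons_zero]
      exact continuous_const
    · simp only [Fin.cons_succ, Fin.cons_zero]
      exact h2.neg
    · simp only [Fin.cons_succ]
      exact continuous_const.mul (hγ i)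
  have h4 : ∀ l : Fin (n + 2), Continuous fun t => xt N 1 (γ t) l := by
    intro l
    unfold xt mv
    refine continuous_finsetSum _ fun j _ => ?_
    exact continuous_const.mul (h3 j)
  unfold gG qf
  refine continuous_finsetSum _ fun p _ => ?_
  exact continuous_const.mul ((h4 _).mul (h4 _))

theorem pf_CU1 : T_CU1 := by
  classical
  intro n F N V ρ hn hV hρ
  obtain ⟨L, hL, hlip⟩ := gG_lip N (R := V + 3) (by linarith)
  obtain ⟨r0, hr0, hr1, hr2⟩ : ∃ r0 : ℝ, 0 < r0 ∧ r0 ≤ 1 ∧ r0 ≤ ρ / (2 * L) :=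
    ⟨min 1 (ρ / (2 * L)), lt_min one_pos (by positivity), min_le_left _ _, min_le_right _ _⟩
  have hLr : L * r0 ≤ ρ / 2 := by
    rw [le_div_iff₀ (by positivity)] at hr2
    linarith
  refine ⟨r0 / 5, L, by positivity, hL, ?_⟩
  intro f u u' hf hu hu' hgu hgu' h hh hhr
  -- the largest coordinate of the difference
  haveI : Nonempty (Fin n) := ⟨⟨0, by omega⟩⟩
  obtain ⟨i, hi⟩ := Finite.exists_max (fun j => |u' j - u j|)
  have hdi : 0 < |u' i - u i| := by
    by_contra hcon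
    have h0 : |u' i - u i| = 0 := le_antisymm (not_lt.1 hcon) (abs_nonneg _)
    have h1 : ∀ j, |u j - u' j| ≤ 0 := by
      intro j
      rw [abs_sub_comm]
      exact (hi j).trans h0.le
    have h2 := hlip f u u' 0 hf (fun j => (hu j).trans (by linarith))
      (fun j => (hu' j).trans (by linarith)) le_rfl h1
    rw [mul_zero] at h2
    have h3 := le_abs_self (gG N f 1 u - gG N f 1 u')
    linarith
  obtain ⟨M, hM⟩ : ∃ M : ℕ, M = ⌊r0 / (5 * h)⌋₊ := ⟨_, rfl⟩
  obtain ⟨G, hG⟩ : ∃ G : Finset (Fin n → ℕ), G =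
      Fintype.piFinset fun j => if j = i then ({0} : Finset ℕ) else range (M + 1) := ⟨_, rfl⟩
  have hGi : ∀ k ∈ G, k i = 0 := by
    intro k hk
    rw [hG, Fintype.mem_piFinset] at hk
    have := hk i
    rwa [if_pos rfl, Finset.mem_singleton] at this
  have hGM : ∀ k ∈ G, ∀ j, k j ≤ M := by
    intro k hk j
    by_cases hj : j = i
    · rw [hj, hGi k hk]
      exact Nat.zero_le _
    · rw [hG, Fintype.mem_piFinset] at hk
      have := hk j
      rw [if_neg hj, Finset.mem_range] at this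
      omega
  have hMle : (M : ℝ) * (5 * h) ≤ r0 := by
    have h1 : (M : ℝ) ≤ r0 / (5 * h) := by
      rw [hM]
      exact Nat.floor_le (by positivity)
    rwa [le_div_iff₀ (by positivity)] at h1
  have hw : ∀ k ∈ G, ∀ j, 0 ≤ 5 * h * (k j : ℝ) ∧ 5 * h * (k j : ℝ) ≤ r0 := by
    intro k hk j
    refine ⟨by positivity, ?_⟩
    have h1 : (k j : ℝ) ≤ M := by exact_mod_cast hGM k hk j
    calc 5 * h * (k j : ℝ) ≤ 5 * h * M := mul_le_mul_of_nonneg_left h1 (by positivity)
      _ = (M : ℝ) * (5 * h) := by ring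
      _ ≤ r0 := hMle
  have hwa : ∀ k ∈ G, ∀ j, |5 * h * (k j : ℝ)| ≤ r0 := by
    intro k hk j
    rw [abs_of_nonneg (hw k hk j).1]
    exact (hw k hk j).2
  -- the zeros on the segments
  have hzero : ∀ k : Fin n → ℕ, ∃ t : ℝ, k ∈ G → 0 ≤ t ∧ t ≤ 1 ∧
      gG N f 1 (fun j => u j + 5 * h * (k j : ℝ) + t * (u' j - u j)) = 0 := by
    intro k
    by_cases hk : k ∈ G
    · set γ : ℝ → Fin n → ℝ := fun t j => u j + 5 * h * (k j : ℝ) + t * (u' j - u j) with hγ
      have hc : Continuous fun t => gG N f 1 (γ t) := by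
        apply cont_gG
        intro j
        rw [hγ]
        fun_prop
      have h0 : 0 ≤ gG N f 1 (γ 0) := by
        have h1 := hlip f u (γ 0) r0 hf (fun j => (hu j).trans (by linarith)) (fun j => by
          rw [hγ]
          simp only [zero_mul, add_zero]
          have a1 := abs_add_le (u j) (5 * h * (k j : ℝ))
          have a2 := hwa k hk j
          have a3 := hu j
          linarith) hr0.le (fun j => by
          rw [hγ]
          simp only [zero_mul, add_zero, sub_add_cancel_left, abs_neg]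
          exact hwa k hk j)
        have h2 := le_abs_self (gG N f 1 u - gG N f 1 (γ 0))
        linarith
      have h0' : gG N f 1 (γ 1) ≤ 0 := by
        have h1 := hlip f (γ 1) u' r0 hf (fun j => by
          rw [hγ]
          simp only [one_mul]
          have a1 := abs_add_le (u' j) (5 * h * (k j : ℝ))
          have a2 := hwa k hk j
          have a3 := hu' j
          have a4 : u j + 5 * h * (k j : ℝ) + (u' j - u j) = u' j + 5 * h * (k j : ℝ) := by ring
          rw [a4]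
          linarith) (fun j => (hu' j).trans (by linarith)) hr0.le (fun j => by
          rw [hγ]
          simp only [one_mul]
          have a4 : u j + 5 * h * (k j : ℝ) + (u' j - u j) - u' j = 5 * h * (k j : ℝ) := by ring
          rw [a4]
          exact hwa k hk j)
        have h2 := le_abs_self (gG N f 1 (γ 1) - gG N f 1 u')
        linarith
      obtain ⟨t, ht, ht0⟩ := intermediate_value_Icc' (zero_le_one (α := ℝ)) hc.continuousOn
        (show (0 : ℝ) ∈ Set.Icc (gG N f 1 (γ 1)) (gG N f 1 (γ 0)) from ⟨h0', h0⟩)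
      exact ⟨t, fun _ => ⟨ht.1, ht.2, ht0⟩⟩
    · exact ⟨0, fun h => absurd h hk⟩
  choose τ hτ using hzero
  set Ψ : (Fin n → ℕ) → Fin n → ℝ := fun k j => u j + 5 * h * (k j : ℝ) + τ k * (u' j - u j) with hΨ
  -- the separation
  have hsep : ∀ k ∈ G, ∀ k' ∈ G, k ≠ k' → ∃ j, 2 * h < |Ψ k j - Ψ k' j| := by
    intro k hk k' hk' hne
    obtain ⟨l, hl⟩ : ∃ l, k l ≠ k' l := by
      by_contra hcon
      push Not at hcon
      exact hne (funext hcon)
    by_cases hb : 2 * h < |(τ k - τ k') * (u' i - u i)|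
    · refine ⟨i, ?_⟩
      have e1 : Ψ k i - Ψ k' i = (τ k - τ k') * (u' i - u i) := by
        rw [hΨ]
        simp only
        rw [hGi k hk, hGi k' hk']
        ring
      rw [e1]
      exact hb
    · refine ⟨l, ?_⟩
      push Not at hb
      have e1 : Ψ k l - Ψ k' l =
          5 * h * ((k l : ℝ) - k' l) + (τ k - τ k') * (u' l - u l) := by
        rw [hΨ]
        simp only
        ring
      have e2 : |(τ k - τ k') * (u' l - u l)| ≤ 2 * h := by
        refine le_trans ?_ hb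
        rw [abs_mul, abs_mul]
        exact mul_le_mul_of_nonneg_left (hi l) (abs_nonneg _)
      have e3 : (1 : ℝ) ≤ |(k l : ℝ) - k' l| := by
        have h1 : (1 : ℤ) ≤ |(k l : ℤ) - k' l| := by
          apply Int.one_le_abs
          intro h0
          apply hl
          omega
        exact_mod_cast h1
      have e4 : 5 * h ≤ |5 * h * ((k l : ℝ) - k' l)| := by
        rw [abs_mul, abs_of_pos (by positivity : (0 : ℝ) < 5 * h)]
        nlinarith
      have e5 := abs_sub_abs_le_abs_sub (5 * h * ((k l : ℝ) - k' l))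
        (-((τ k - τ k') * (u' l - u l)))
      rw [abs_neg, sub_neg_eq_add] at e5
      rw [e1]
      linarith
  have hinj : Set.InjOn Ψ G := by
    intro k hk k' hk' heq
    by_contra hne
    obtain ⟨j, hj⟩ := hsep k hk k' hk' hne
    rw [heq, sub_self, abs_zero] at hj
    linarith
  have hbd : ∀ k ∈ G, ∀ j, |Ψ k j| ≤ V + 1 := by
    intro k hk j
    obtain ⟨t0, t1, _⟩ := hτ k hk
    have e1 : Ψ k j = ((1 - τ k) * u j + τ k * u' j) + 5 * h * (k j : ℝ) := by
      rw [hΨ]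
      simp only
      ring
    rw [e1]
    refine (abs_add_le _ _).trans ?_
    have e2 : |(1 - τ k) * u j + τ k * u' j| ≤ V := by
      refine (abs_add_le _ _).trans ?_
      rw [abs_mul, abs_mul, abs_of_nonneg t0, abs_of_nonneg (by linarith : 0 ≤ 1 - τ k)]
      have a1 := mul_le_mul_of_nonneg_left (hu j) (by linarith : 0 ≤ 1 - τ k)
      have a2 := mul_le_mul_of_nonneg_left (hu' j) t0
      linarith
    have e3 := hwa k hk j
    linarith
  refine ⟨G.image Ψ, ?_, ?_, ?_⟩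
  · rw [Finset.card_image_of_injOn hinj]
    have hcard : G.card = (M + 1) ^ (n - 1) := by
      rw [hG, Fintype.card_piFinset]
      have e1 : ∀ j : Fin n, (if j = i then ({0} : Finset ℕ) else range (M + 1)).card =
          if j = i then 1 else M + 1 := by
        intro j
        split_ifs <;> simp
      rw [Finset.prod_congr rfl fun j _ => e1 j]
      rw [Finset.prod_ite]
      rw [Finset.prod_const_one, one_mul, Finset.prod_const]
      congr 1
      rw [Finset.filter_ne', Finset.card_erase_of_mem (Finset.mem_univ i), Finset.card_univ,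
        Fintype.card_fin]
    rw [hcard]
    push_cast
    apply pow_le_pow_left₀ (by positivity)
    have h1 : r0 / (5 * h) < (M : ℝ) + 1 := by
      rw [hM]
      exact Nat.lt_floor_add_one _
    calc r0 / 5 / h = r0 / (5 * h) := by rw [div_div]
      _ ≤ (M : ℝ) + 1 := h1.le
  · intro y hy z hz
    rw [Finset.mem_image] at hy
    obtain ⟨k, hk, rfl⟩ := hy
    have hh1 : h ≤ 1 := by linarith
    have hzb : ∀ j, |z j| ≤ V + 2 := by
      intro j
      have a1 := hz j
      have a2 := hbd k hk j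
      have a3 := abs_sub_abs_le_abs_sub (z j) (Ψ k j)
      linarith
    refine ⟨hzb, ?_⟩
    have h1 := hlip f z (Ψ k) h hf (fun j => (hzb j).trans (by linarith))
      (fun j => (hbd k hk j).trans (by linarith)) hh.le hz
    have h2 : gG N f 1 (Ψ k) = 0 := (hτ k hk).2.2
    rwa [h2, sub_zero] at h1
  · intro y hy y' hy' hne
    rw [Finset.mem_image] at hy hy'
    obtain ⟨k, hk, rfl⟩ := hy
    obtain ⟨k', hk', rfl⟩ := hy'
    apply hsep k hk k' hk'
    intro h0
    exact hne (by rw [h0])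

end Pool.Agent.H4.HFQ
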