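import Pool.Agent.H34.FQ.Targets

/-!
# RZA: a rational zero of `F` which is not orthogonal to two given vectors
-/

set_option autoImplicit false

open Finset Pool.Agent.H32.RQ Pool.Agent.H34.FQ

namespace Pool.Agent.H4.HFQ

section alg

variable {R : Type} [CommRing R] {s : ℕ}

lemma bl_eq (f : Mon s → R) (x y : Fin s → R) :
    bl f x y = ∑ p, f p * (x p.1.1 * y p.1.2 + x p.1.2 * y p.1.1) := by
  unfold bl dq
  simp only [Finset.mul_sum]
  rw [Finset.sum_comm]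
  refine Finset.sum_congr rfl fun p _ => ?_
  have h1 : ∀ j, x j * (f p * ((if p.1.1 = j then y p.1.2 else 0) +
      (if p.1.2 = j then y p.1.1 else 0))) =
      (if p.1.1 = j then x j * f p * y p.1.2 else 0) +
      (if p.1.2 = j then x j * f p * y p.1.1 else 0) := by
    intro j
    split_ifs <;> ring
  rw [Finset.sum_congr rfl fun j _ => h1 j, Finset.sum_add_distrib, Finset.sum_ite_eq,
    Finset.sum_ite_eq, if_pos (Finset.mem_univ _), if_pos (Finset.mem_univ _)]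
  ring

lemma bl_comm (f : Mon s → R) (x y : Fin s → R) : bl f x y = bl f y x := by
  rw [bl_eq, bl_eq]
  exact Finset.sum_congr rfl fun p _ => by ring

lemma bl_lin (f : Mon s → R) (a b : R) (x y z : Fin s → R) :
    bl f (fun i => a * x i + b * y i) z = a * bl f x z + b * bl f y z := by
  rw [bl_eq, bl_eq, bl_eq, Finset.mul_sum, Finset.mul_sum, ← Finset.sum_add_distrib]
  exact Finset.sum_congr rfl fun p _ => by ring

lemma bl_lin' (f : Mon s → R) (a b : R) (x y z : Fin s → R) :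
    bl f z (fun i => a * x i + b * y i) = a * bl f z x + b * bl f z y := by
  rw [bl_comm, bl_lin, bl_comm f x z, bl_comm f y z]

lemma qf_lin (f : Mon s → R) (a b : R) (x y : Fin s → R) :
    qf f (fun i => a * x i + b * y i) = a ^ 2 * qf f x + a * b * bl f x y + b ^ 2 * qf f y := by
  rw [bl_eq]
  unfold qf
  rw [Finset.mul_sum, Finset.mul_sum, Finset.mul_sum, ← Finset.sum_add_distrib,
    ← Finset.sum_add_distrib]
  exact Finset.sum_congr rfl fun p _ => by ring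

lemma bl_single (f : Mon s → R) (i : Fin s) (y : Fin s → R) :
    bl f (Pi.single i 1) y = dq f y i := by
  unfold bl
  rw [Finset.sum_eq_single i]
  · rw [Pi.single_eq_same, one_mul]
  · intro j _ hj
    rw [Pi.single_eq_of_ne hj, zero_mul]
  · intro h
    exact absurd (Finset.mem_univ i) h

lemma dq_single (f : Mon s → R) (i j : Fin s) : dq f (Pi.single j 1) i = gr f i j := by
  have h1 := Pool.Agent.H13.RQ.Hs_mulVec f (Pi.single j 1) i
  rw [← h1, Finset.sum_eq_single j]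
  · rw [Pi.single_eq_same, mul_one]
  · intro k _ hk
    rw [Pi.single_eq_of_ne hk, mul_zero]
  · intro h
    exact absurd (Finset.mem_univ j) h

end alg

lemma qf_castR {s : ℕ} (F : Mon s → ℤ) (w : Fin s → ℤ) :
    qf (cf ℝ F) (fun i => (w i : ℝ)) = ((qf F w : ℤ) : ℝ) := by
  unfold qf cf
  push_cast
  rfl

lemma bl_castR {s : ℕ} (F : Mon s → ℤ) (w z : Fin s → ℤ) :
    bl (cf ℝ F) (fun i => (w i : ℝ)) (fun i => (z i : ℝ)) = ((bl F w z : ℤ) : ℝ) := by
  rw [bl_eq, bl_eq]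
  unfold cf
  push_cast
  rfl

lemma single_castR {s : ℕ} (i : Fin s) :
    (fun l => (((Pi.single i 1 : Fin s → ℤ) l : ℤ) : ℝ)) = (Pi.single i 1 : Fin s → ℝ) := by
  funext l
  by_cases h : l = i
  · rw [h, Pi.single_eq_same, Pi.single_eq_same, Int.cast_one]
  · rw [Pi.single_eq_of_ne h, Pi.single_eq_of_ne h, Int.cast_zero]

lemma det_castR {s : ℕ} {F : Mon s → ℤ} (h : (gr F).det ≠ 0) : (gr (cf ℝ F)).det ≠ 0 := by
  have h1 : gr (cf ℝ F) = (gr F).map (Int.castRingHom ℝ) := by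
    ext i j
    rw [Matrix.map_apply]
    exact (Pool.Agent.H13.RQ.Hs_map (Int.castRingHom ℝ) F i j).symm
  rw [h1]
  intro h2
  apply h
  have h3 := RingHom.map_det (Int.castRingHom ℝ) (gr F)
  rw [RingHom.mapMatrix_apply, h2] at h3
  have h4 : (((gr F).det : ℤ) : ℝ) = 0 := h3
  exact_mod_cast h4

/-- the form is nondegenerate -/
lemma nondeg {s : ℕ} {F : Mon s → ℤ} (h : (gr F).det ≠ 0) {x : Fin s → ℝ} (hx : x ≠ 0) :
    ∃ i, dq (cf ℝ F) x i ≠ 0 := by
  by_contra hcon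
  push Not at hcon
  apply hx
  apply Matrix.eq_zero_of_mulVec_eq_zero (det_castR h)
  funext i
  have h1 := Pool.Agent.H13.RQ.Hs_mulVec (cf ℝ F) x i
  rw [hcon i] at h1
  exact h1

lemma common_t (a b c a' b' c' : ℝ) (h : a ≠ 0 ∨ b ≠ 0 ∨ c ≠ 0)
    (h' : a' ≠ 0 ∨ b' ≠ 0 ∨ c' ≠ 0) :
    ∃ t : ℕ, a + b * t + c * (t : ℝ) ^ 2 ≠ 0 ∧ a' + b' * t + c' * (t : ℝ) ^ 2 ≠ 0 := by
  have key : ∀ a b c : ℝ, (a ≠ 0 ∨ b ≠ 0 ∨ c ≠ 0) →
      (Polynomial.C a + Polynomial.C b * Polynomial.X + Polynomial.C c * Polynomial.X ^ 2 :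
        Polynomial ℝ) ≠ 0 := by
    intro a b c h h0
    have h1 := congrArg (fun p => Polynomial.coeff p 0) h0
    have h2 := congrArg (fun p => Polynomial.coeff p 1) h0
    have h3 := congrArg (fun p => Polynomial.coeff p 2) h0
    simp [Polynomial.coeff_C, Polynomial.coeff_X_pow] at h1
    simp [Polynomial.coeff_C, Polynomial.coeff_X_pow] at h2
    simp [Polynomial.coeff_C, Polynomial.coeff_X, Polynomial.coeff_X_pow] at h3
    rcases h with h | h | h
    · exact h h1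
    · exact h h2
    · exact h h3
  by_contra hcon
  push Not at hcon
  have h0 := mul_ne_zero (key a b c h) (key a' b' c' h')
  apply h0
  apply Polynomial.eq_zero_of_infinite_isRoot
  apply Set.infinite_of_injective_forall_mem (f := fun n : ℕ => (n : ℝ)) Nat.cast_injective
  intro t
  simp only [Set.mem_setOf_eq, Polynomial.IsRoot.def, Polynomial.eval_mul, Polynomial.eval_add,
    Polynomial.eval_C, Polynomial.eval_X, Polynomial.eval_pow]
  by_cases h1 : a + b * t + c * (t : ℝ) ^ 2 = 0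
  · rw [h1, zero_mul]
  · rw [hcon t h1, mul_zero]

lemma exists_prm {s : ℕ} (z : Fin s → ℤ) (hz : z ≠ 0) :
    ∃ (g : ℤ) (y : Fin s → ℤ), g ≠ 0 ∧ Prm y ∧ ∀ i, z i = g * y i := by
  obtain ⟨g, hg⟩ := (IsPrincipalIdealRing.principal (Ideal.span (Set.range z))).principal
  have h1 : ∀ i, g ∣ z i := by
    intro i
    have h2 : z i ∈ Ideal.span (Set.range z) := Ideal.subset_span ⟨i, rfl⟩
    rw [hg] at h2
    exact Ideal.mem_span_singleton.1 h2
  have h2 : g ∈ Ideal.span (Set.range z) := by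
    rw [hg]
    exact Submodule.mem_span_singleton_self g
  obtain ⟨a, ha⟩ := Ideal.mem_span_range_iff_exists_fun.1 h2
  choose y hy using h1
  have hg0 : g ≠ 0 := by
    rintro rfl
    apply hz
    funext i
    rw [hy i, zero_mul, Pi.zero_apply]
  refine ⟨g, y, hg0, ⟨a, ?_⟩, hy⟩
  apply mul_left_cancel₀ hg0
  rw [mul_one, Finset.mul_sum]
  calc ∑ i, g * (a i * y i) = ∑ i, a i * z i := by
        refine Finset.sum_congr rfl fun i _ => ?_
        rw [hy i]
        ring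
    _ = g := ha

/-- the value at `x` of the linear form of the second zero -/
noncomputable def PP {s : ℕ} (F : Mon s → ℤ) (z₀ : Fin s → ℤ) (x : Fin s → ℝ) (w : Fin s → ℤ) : ℝ :=
  qf (cf ℝ F) (fun i => (w i : ℝ)) * bl (cf ℝ F) (fun i => (z₀ i : ℝ)) x -
    bl (cf ℝ F) (fun i => (z₀ i : ℝ)) (fun i => (w i : ℝ)) *
      bl (cf ℝ F) (fun i => (w i : ℝ)) x

/-- the middle coefficient -/
noncomputable def PM {s : ℕ} (F : Mon s → ℤ) (z₀ : Fin s → ℤ) (x : Fin s → ℝ)
    (w w' : Fin s → ℤ) : ℝ :=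
  bl (cf ℝ F) (fun i => (w i : ℝ)) (fun i => (w' i : ℝ)) * bl (cf ℝ F) (fun i => (z₀ i : ℝ)) x -
    (bl (cf ℝ F) (fun i => (z₀ i : ℝ)) (fun i => (w i : ℝ)) *
      bl (cf ℝ F) (fun i => (w' i : ℝ)) x +
    bl (cf ℝ F) (fun i => (z₀ i : ℝ)) (fun i => (w' i : ℝ)) *
      bl (cf ℝ F) (fun i => (w i : ℝ)) x)

lemma cast_lin {s : ℕ} (w w' : Fin s → ℤ) (t : ℕ) :
    (fun i => (((w i + t * w' i : ℤ)) : ℝ)) = fun i => (1 : ℝ) * (w i : ℝ) + (t : ℝ) * (w' i : ℝ) := by
  funext i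
  push_cast
  ring

lemma PP_add {s : ℕ} (F : Mon s → ℤ) (z₀ : Fin s → ℤ) (x : Fin s → ℝ) (w w' : Fin s → ℤ) (t : ℕ) :
    PP F z₀ x (fun i => w i + t * w' i) =
      PP F z₀ x w + PM F z₀ x w w' * t + PP F z₀ x w' * (t : ℝ) ^ 2 := by
  unfold PP PM
  rw [cast_lin, qf_lin, bl_lin, bl_lin']
  ring

lemma exists_ker {s : ℕ} (hs : 3 ≤ s) (α β : Fin s → ℝ) :
    ∃ v : Fin s → ℝ, v ≠ 0 ∧ ∑ i, α i * v i = 0 ∧ ∑ i, β i * v i = 0 := by
  have h1 : LinearMap.ker (Matrix.mulVecLin (![α, β] : Matrix (Fin 2) (Fin s) ℝ)) ≠ ⊥ := by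
    apply LinearMap.ker_ne_bot_of_finrank_lt
    simp
    omega
  obtain ⟨v, hv, hv0⟩ := Submodule.exists_mem_ne_zero_of_ne_bot h1
  refine ⟨v, hv0, ?_, ?_⟩
  · have h2 := congrFun (LinearMap.mem_ker.1 hv) 0
    simpa [Matrix.mulVec, dotProduct] using h2
  · have h2 := congrFun (LinearMap.mem_ker.1 hv) 1
    simpa [Matrix.mulVec, dotProduct] using h2

lemma PP_nz {s : ℕ} (hs : 3 ≤ s) {F : Mon s → ℤ} (hF : (gr F).det ≠ 0) {z₀ : Fin s → ℤ}
    (hz : z₀ ≠ 0) {x : Fin s → ℝ} (hx : x ≠ 0) : ∃ w, PP F z₀ x w ≠ 0 := by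
  by_cases ha : bl (cf ℝ F) (fun i => (z₀ i : ℝ)) x = 0
  · have hz' : (fun i => (z₀ i : ℝ)) ≠ 0 := by
      intro h0
      apply hz
      funext i
      have := congrFun h0 i
      simp only [Pi.zero_apply] at this
      exact_mod_cast this
    obtain ⟨i, hi⟩ := nondeg hF hz'
    obtain ⟨j, hj⟩ := nondeg hF hx
    rw [← bl_single, bl_comm] at hi
    rw [← bl_single] at hj
    obtain ⟨t, h1, h2⟩ := common_t
      (bl (cf ℝ F) (fun i => (z₀ i : ℝ)) (Pi.single i 1))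
      (bl (cf ℝ F) (fun i => (z₀ i : ℝ)) (Pi.single j 1)) 0
      (bl (cf ℝ F) (Pi.single i 1) x) (bl (cf ℝ F) (Pi.single j 1) x) 0 (Or.inl hi)
      (Or.inr (Or.inl hj))
    refine ⟨fun l => (Pi.single i 1 : Fin s → ℤ) l + t * (Pi.single j 1 : Fin s → ℤ) l, ?_⟩
    unfold PP
    rw [cast_lin, ha, mul_zero, zero_sub, neg_ne_zero]
    have e1 := single_castR i
    have e2 := single_castR j
    have e3 : (fun l => (1 : ℝ) * (((Pi.single i 1 : Fin s → ℤ) l : ℤ) : ℝ) +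
        (t : ℝ) * (((Pi.single j 1 : Fin s → ℤ) l : ℤ) : ℝ)) =
        fun l => (1 : ℝ) * (Pi.single i 1 : Fin s → ℝ) l + (t : ℝ) * (Pi.single j 1 : Fin s → ℝ) l := by
      funext l
      rw [congrFun e1 l, congrFun e2 l]
    rw [e3, bl_lin, bl_lin']
    apply mul_ne_zero
    · intro h0
      apply h1
      linarith
    · intro h0
      apply h2
      linarith
  · by_contra hcon
    push Not at hcon
    have hM : ∀ w w', PM F z₀ x w w' = 0 := by
      intro w w'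
      have h1 := PP_add F z₀ x w w' 1
      rw [hcon, hcon, hcon] at h1
      push_cast at h1
      linarith
    obtain ⟨v, hv0, h1, h2⟩ := exists_ker hs
      (fun j => bl (cf ℝ F) (fun i => (z₀ i : ℝ)) (Pi.single j 1))
      (fun j => bl (cf ℝ F) (Pi.single j 1) x)
    apply hv0
    apply Matrix.eq_zero_of_mulVec_eq_zero (det_castR hF)
    funext i
    have h3 : ∀ j, gr (cf ℝ F) i j * bl (cf ℝ F) (fun i => (z₀ i : ℝ)) x =
        bl (cf ℝ F) (fun i => (z₀ i : ℝ)) (Pi.single i 1) * bl (cf ℝ F) (Pi.single j 1) x +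
        bl (cf ℝ F) (fun i => (z₀ i : ℝ)) (Pi.single j 1) * bl (cf ℝ F) (Pi.single i 1) x := by
      intro j
      have h4 := hM (Pi.single i 1) (Pi.single j 1)
      unfold PM at h4
      rw [single_castR, single_castR, bl_single (cf ℝ F) i (Pi.single j 1), dq_single] at h4
      linarith
    have h4 : (∑ j, gr (cf ℝ F) i j * v j) * bl (cf ℝ F) (fun i => (z₀ i : ℝ)) x = 0 := by
      calc (∑ j, gr (cf ℝ F) i j * v j) * bl (cf ℝ F) (fun i => (z₀ i : ℝ)) x
          = ∑ j, (gr (cf ℝ F) i j * bl (cf ℝ F) (fun i => (z₀ i : ℝ)) x) * v j := by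
            rw [Finset.sum_mul]
            exact Finset.sum_congr rfl fun j _ => by ring
        _ = ∑ j, (bl (cf ℝ F) (fun i => (z₀ i : ℝ)) (Pi.single i 1) *
              (bl (cf ℝ F) (Pi.single j 1) x * v j) +
              bl (cf ℝ F) (Pi.single i 1) x *
              (bl (cf ℝ F) (fun i => (z₀ i : ℝ)) (Pi.single j 1) * v j)) := by
            refine Finset.sum_congr rfl fun j _ => ?_
            rw [h3 j]
            ring
        _ = 0 := by
            rw [Finset.sum_add_distrib, ← Finset.mul_sum, ← Finset.mul_sum, h1, h2]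
            ring
    rcases mul_eq_zero.1 h4 with h5 | h5
    · exact h5
    · exact absurd h5 ha

theorem rza : T_RZA := by
  intro n F x x' hn hF hz hx hx'
  obtain ⟨z₀, hz₀, hz⟩ := hz
  obtain ⟨w₁, h1⟩ := PP_nz (by omega) hF hz₀ hx
  obtain ⟨w₂, h2⟩ := PP_nz (by omega) hF hz₀ hx'
  obtain ⟨t, h3, h4⟩ := common_t (PP F z₀ x w₁) (PM F z₀ x w₁ w₂) (PP F z₀ x w₂)
    (PP F z₀ x' w₁) (PM F z₀ x' w₁ w₂) (PP F z₀ x' w₂) (Or.inl h1) (Or.inr (Or.inr h2))
  rw [← PP_add] at h3 h4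
  set w : Fin (n + 2) → ℤ := fun i => w₁ i + t * w₂ i with hw
  -- the second zero
  set ζ : Fin (n + 2) → ℤ := fun i => qf F w * z₀ i + (-bl F z₀ w) * w i with hζ
  have hζ0 : qf F ζ = 0 := by
    rw [hζ, qf_lin, hz]
    ring
  have hbl : ∀ x : Fin (n + 2) → ℝ, bl (cf ℝ F) (fun i => (ζ i : ℝ)) x = PP F z₀ x w := by
    intro x
    have e1 : (fun i => (ζ i : ℝ)) = fun i => ((qf F w : ℤ) : ℝ) * (z₀ i : ℝ) +
        (-((bl F z₀ w : ℤ) : ℝ)) * (w i : ℝ) := by
      funext i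
      rw [hζ]
      push_cast
      ring
    unfold PP
    rw [e1, bl_lin, qf_castR, bl_castR]
    ring
  have hζ1 : ζ ≠ 0 := by
    intro h0
    apply h3
    rw [← hbl, h0, bl_eq]
    apply Finset.sum_eq_zero
    intro p _
    simp
  obtain ⟨g, y, hg, hy, hgy⟩ := exists_prm ζ hζ1
  have e2 : ζ = fun i => g * y i + 0 * y i := by
    funext i
    rw [hgy i]
    ring
  have e3 : ∀ x : Fin (n + 2) → ℝ, (g : ℝ) * bl (cf ℝ F) (fun i => (y i : ℝ)) x =
      PP F z₀ x w := by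
    intro x
    have e4 : (fun i => (ζ i : ℝ)) = fun i => (g : ℝ) * (y i : ℝ) + 0 * (y i : ℝ) := by
      funext i
      rw [hgy i]
      push_cast
      ring
    rw [← hbl, e4, bl_lin]
    ring
  refine ⟨y, hy, ?_, ?_, ?_⟩
  · have h5 := hζ0
    rw [e2, qf_lin] at h5
    have h6 : g ^ 2 * qf F y = 0 := by
      calc g ^ 2 * qf F y = g ^ 2 * qf F y + g * 0 * bl F y y + 0 ^ 2 * qf F y := by ring
        _ = 0 := h5
    rcases mul_eq_zero.1 h6 with h7 | h7
    · exact absurd h7 (pow_ne_zero 2 hg)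
    · exact h7
  · intro h0
    apply h3
    rw [← e3, h0, mul_zero]
  · intro h0
    apply h4
    rw [← e3, h0, mul_zero]

theorem pf_RZA (_hNFE : T_NFE) (_hPBK : T_PBK) : T_RZA := rza

end Pool.Agent.H4.HFQ
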