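import Pool.Agent.H34.FQ.Targets

/-!
# SE1: the second moment
-/

set_option autoImplicit false

open Finset Pool.Agent.H32.RQ Pool.Agent.H34.FQ

namespace Pool.Agent.H4.HFQ

lemma mv_int {s : ℕ} (T : Matrix (Fin s) (Fin s) ℤ) (x : Fin s → ℤ) :
    mv T x = T.mulVec x := by
  funext i
  unfold mv
  simp [Matrix.mulVec, dotProduct]

lemma mv_inv {s : ℕ} {T Ti : Matrix (Fin s) (Fin s) ℤ} (h : Ti * T = 1) (x : Fin s → ℤ) :
    mv Ti (mv T x) = x := by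
  rw [mv_int, mv_int, Matrix.mulVec_mulVec, h, Matrix.one_mulVec]

lemma mv_inj {s : ℕ} {T Ti : Matrix (Fin s) (Fin s) ℤ} (h : Ti * T = 1) {x y : Fin s → ℤ}
    (hxy : mv T x = mv T y) : x = y := by
  rw [← mv_inv h x, hxy, mv_inv h y]

/-- if the image is primitive, so is the vector -/
lemma prm_of_mv {s : ℕ} {T : Matrix (Fin s) (Fin s) ℤ} {x : Fin s → ℤ} (h : Prm (mv T x)) :
    Prm x := by
  obtain ⟨a, ha⟩ := h
  refine ⟨fun j => ∑ i, a i * T i j, ?_⟩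
  rw [← ha]
  unfold mv
  simp only [Int.cast_id, Finset.sum_mul, Finset.mul_sum]
  rw [Finset.sum_comm]
  refine Finset.sum_congr rfl fun i _ => Finset.sum_congr rfl fun j _ => ?_
  ring

/-- the dependent pairs -/
lemma se1_dep (hDI1 : T_DI1) (hPKP : T_PKP) (hDEP : T_DEP) {s B K D A J Q W T X : ℕ} [NeZero Q]
    (S : Finset (Fin s → ℤ)) (hS : ∀ x ∈ S, Gv B K D x) (hA : 1 ≤ A) (hBA : B ≤ A)
    (hQ : Q = 2 * A * J) (hJ : B ^ 2 ≤ J) (hJ1 : 1 ≤ J) (hW : 1 ≤ W) (hWQ : W ∣ Q) (hTQ : T ∣ Q)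
    (hWT : 2 * W ≤ T) (hX : 1 ≤ X) (hXB : X ≤ B) :
    ∑ q ∈ (S ×ˢ S).filter (fun q => ¬ dm q.1 q.2 ≠ 0), pk Q J W T q.1 q.2 ≤
      S.card * ((2 * (K : ℝ) ^ 2 + 1) / (A * (X : ℝ) ^ 2)) := by
  classical
  set P := (S ×ˢ S).filter (fun q => ¬ dm q.1 q.2 ≠ 0) with hP
  have hAr : (0 : ℝ) < A := by exact_mod_cast hA
  have hXr : (0 : ℝ) < X := by exact_mod_cast hX
  have hXBr : (X : ℝ) ≤ B := by exact_mod_cast hXB
  have hBr : (0 : ℝ) < B := lt_of_lt_of_le hXr hXBr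
  have hterm : ∀ q ∈ P, pk Q J W T q.1 q.2 ≤
      (2 * (K : ℝ) ^ 2 + 1) / (2 * A * (X : ℝ) ^ 2) := by
    intro q hq
    rw [hP, Finset.mem_filter, Finset.mem_product, not_not] at hq
    obtain ⟨⟨h1, h2⟩, h3⟩ := hq
    have hyx := hDEP s q.1 q.2 (hS _ h1).prm (hS _ h2).prm h3
    obtain ⟨k1, k2⟩ := hPKP s Q J W T q.1 q.2 hJ1 hW hWQ hTQ hWT
    have k3 := hDI1 s B K D A J Q q.1 q.2 hA hBA hQ hJ (hS _ h1) hyx
    rw [le_div_iff₀ (by positivity)]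
    have k5 : 0 ≤ pp Q J q.1 q.2 := k1.trans k2
    calc pk Q J W T q.1 q.2 * (2 * A * (X : ℝ) ^ 2)
        ≤ pp Q J q.1 q.2 * (2 * A * (B : ℝ) ^ 2) := by
          apply mul_le_mul k2 _ (by positivity) k5
          apply mul_le_mul_of_nonneg_left _ (by positivity)
          exact pow_le_pow_left₀ hXr.le hXBr 2
      _ ≤ _ := k3
  have hcard : P.card ≤ S.card * 2 := by
    have h1 : P.card ≤ (S ×ˢ (Finset.univ : Finset Bool)).card := by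
      refine Finset.card_le_card_of_injOn (fun q => (q.1, decide (q.2 = q.1))) ?_ ?_
      · intro q hq
        have hq' : q ∈ P := hq
        rw [hP, Finset.mem_filter, Finset.mem_product] at hq'
        simp only [Finset.coe_product, Set.mem_prod, Finset.mem_coe, Finset.mem_univ, and_true]
        exact hq'.1.1
      · intro q hq q' hq' h
        have e1 : q ∈ P := hq
        have e2 : q' ∈ P := hq'
        rw [hP, Finset.mem_filter, Finset.mem_product, not_not] at e1 e2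
        have f1 := hDEP s q.1 q.2 (hS _ e1.1.1).prm (hS _ e1.1.2).prm e1.2
        have f2 := hDEP s q'.1 q'.2 (hS _ e2.1.1).prm (hS _ e2.1.2).prm e2.2
        simp only [Prod.mk.injEq, decide_eq_decide] at h
        obtain ⟨h1, h2⟩ := h
        refine Prod.ext h1 ?_
        by_cases h3 : q.2 = q.1
        · rw [h3, h2.1 h3, h1]
        · have h4 : ¬ q'.2 = q'.1 := fun h => h3 (h2.2 h)
          rcases f1 with f1 | f1
          · exact absurd f1 h3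
          rcases f2 with f2 | f2
          · exact absurd f2 h4
          rw [f1, f2, h1]
    rw [Finset.card_product, Finset.card_univ, Fintype.card_bool] at h1
    exact h1
  have hcard2 : (P.card : ℝ) ≤ S.card * 2 := by exact_mod_cast hcard
  calc ∑ q ∈ P, pk Q J W T q.1 q.2
      ≤ ∑ _q ∈ P, (2 * (K : ℝ) ^ 2 + 1) / (2 * A * (X : ℝ) ^ 2) := Finset.sum_le_sum hterm
    _ = P.card * ((2 * (K : ℝ) ^ 2 + 1) / (2 * A * (X : ℝ) ^ 2)) := by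
        rw [Finset.sum_const, nsmul_eq_mul]
    _ ≤ (S.card * 2) * ((2 * (K : ℝ) ^ 2 + 1) / (2 * A * (X : ℝ) ^ 2)) :=
        mul_le_mul_of_nonneg_right hcard2 (by positivity)
    _ = S.card * ((2 * (K : ℝ) ^ 2 + 1) / (A * (X : ℝ) ^ 2)) := by
        field_simp

/-- the term of the sum over the independent pairs -/
noncomputable def tm (κ : ℝ) (W X : ℕ) {s : ℕ} (q : (Fin s → ℤ) × (Fin s → ℤ)) : ℝ :=
  (gm q.1 q.2 : ℝ) / dm q.1 q.2 * X ^ 2 *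
    (if gm q.1 q.2 ∣ W then κ * X ^ 2 / dm q.1 q.2 else 1)

lemma tm_nonneg {κ : ℝ} (hκ : 0 ≤ κ) (W X : ℕ) {s : ℕ} (q : (Fin s → ℤ) × (Fin s → ℤ)) :
    0 ≤ tm κ W X q := by
  unfold tm
  split_ifs <;> positivity

/-- the bound for an independent pair -/
lemma se1_ind {CB : ℝ} (hCB : 0 < CB) (hPKP : T_PKP) {s B K D A J Q W T X : ℕ} [NeZero Q]
    {δ : ℝ} (hPB : ∀ (B D A J Q W T : ℕ) [NeZero Q] (x y : Fin s → ℤ), 1 ≤ A →
    2 * B ^ 2 ≤ D * A → Q = 2 * A * J → 2 * B ^ 4 ≤ J → 1 ≤ W → W ∣ Q → T ∣ Q → 2 * W ≤ T →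
    Gv B K D x → Gv B K D y → dm x y ≠ 0 →
    pp Q J x y * ((2 * (A : ℝ)) ^ 2 * (B : ℝ) ^ 2 * dm x y) ≤ CB * gm x y ∧
    (gm x y ∣ W → pk Q J W T x y * ((2 * (A : ℝ)) ^ 3 * (B : ℝ) ^ 2 * (dm x y : ℝ) ^ 2) ≤
      CB * gm x y * T)) (x y : Fin s → ℤ) (hA : 1 ≤ A)
    (hD : 2 * B ^ 2 ≤ D * A) (hQ : Q = 2 * A * J) (hJ : 2 * B ^ 4 ≤ J) (hJ1 : 1 ≤ J)
    (hW : 1 ≤ W) (hWQ : W ∣ Q) (hTQ : T ∣ Q) (hWT : 2 * W ≤ T) (hx : Gv B K D x)
    (hy : Gv B K D y) (hxy : dm x y ≠ 0) (hX : 1 ≤ X) (hXB : X ≤ B)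
    (hT : (T : ℝ) ≤ δ * A * (X : ℝ) ^ 2) :
    pk Q J W T x y ≤ CB / ((A : ℝ) ^ 2 * (X : ℝ) ^ 4) * tm δ W X (x, y) := by
  obtain ⟨k3, k4⟩ := hPB B D A J Q W T x y hA hD hQ hJ hW hWQ hTQ hWT hx hy hxy
  obtain ⟨k1, k2⟩ := hPKP s Q J W T x y hJ1 hW hWQ hTQ hWT
  have hAr : (0 : ℝ) < A := by exact_mod_cast hA
  have hXr : (0 : ℝ) < X := by exact_mod_cast hX
  have hXBr : (X : ℝ) ≤ B := by exact_mod_cast hXB
  have hBr : (0 : ℝ) < B := lt_of_lt_of_le hXr hXBr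
  have hd : (0 : ℝ) < dm x y := by exact_mod_cast Nat.pos_of_ne_zero hxy
  have hX2 : (X : ℝ) ^ 2 ≤ (B : ℝ) ^ 2 := pow_le_pow_left₀ hXr.le hXBr 2
  have hg : (0 : ℝ) ≤ gm x y := Nat.cast_nonneg _
  have hp0 : 0 ≤ pp Q J x y := k1.trans k2
  unfold tm
  dsimp only
  split_ifs with h
  · have e1 : CB / ((A : ℝ) ^ 2 * (X : ℝ) ^ 4) *
        ((gm x y : ℝ) / dm x y * X ^ 2 * (δ * X ^ 2 / dm x y)) =
        CB * gm x y * δ / ((A : ℝ) ^ 2 * (dm x y : ℝ) ^ 2) := by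
      field_simp
    rw [e1, le_div_iff₀ (by positivity)]
    have h5 := k4 h
    have h6 : pk Q J W T x y * ((A : ℝ) ^ 2 * (dm x y : ℝ) ^ 2) * (8 * A * (X : ℝ) ^ 2) ≤
        CB * gm x y * δ * (A * (X : ℝ) ^ 2) := by
      calc pk Q J W T x y * ((A : ℝ) ^ 2 * (dm x y : ℝ) ^ 2) * (8 * A * (X : ℝ) ^ 2)
          ≤ pk Q J W T x y * ((A : ℝ) ^ 2 * (dm x y : ℝ) ^ 2) * (8 * A * (B : ℝ) ^ 2) := by
            apply mul_le_mul_of_nonneg_left _ (by positivity)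
            apply mul_le_mul_of_nonneg_left hX2 (by positivity)
        _ = pk Q J W T x y * ((2 * (A : ℝ)) ^ 3 * (B : ℝ) ^ 2 * (dm x y : ℝ) ^ 2) := by ring
        _ ≤ CB * gm x y * T := h5
        _ ≤ CB * gm x y * (δ * A * (X : ℝ) ^ 2) := by
            apply mul_le_mul_of_nonneg_left hT (by positivity)
        _ = _ := by ring
    have h7 : (0 : ℝ) < A * (X : ℝ) ^ 2 := by positivity
    have h8 : pk Q J W T x y * ((A : ℝ) ^ 2 * (dm x y : ℝ) ^ 2) * 8 ≤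
        CB * gm x y * δ := by
      refine le_of_mul_le_mul_right ?_ h7
      calc _ = pk Q J W T x y * ((A : ℝ) ^ 2 * (dm x y : ℝ) ^ 2) * (8 * A * (X : ℝ) ^ 2) := by ring
        _ ≤ _ := h6
    have h9 : 0 ≤ pk Q J W T x y * ((A : ℝ) ^ 2 * (dm x y : ℝ) ^ 2) := by positivity
    linarith
  · have e1 : CB / ((A : ℝ) ^ 2 * (X : ℝ) ^ 4) * ((gm x y : ℝ) / dm x y * X ^ 2 * 1) =
        CB * gm x y / ((A : ℝ) ^ 2 * (X : ℝ) ^ 2 * dm x y) := by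
      field_simp
    rw [e1, le_div_iff₀ (by positivity)]
    have h9 : 0 ≤ pp Q J x y * ((A : ℝ) ^ 2 * (X : ℝ) ^ 2 * dm x y) := by positivity
    calc pk Q J W T x y * ((A : ℝ) ^ 2 * (X : ℝ) ^ 2 * dm x y)
        ≤ pp Q J x y * ((A : ℝ) ^ 2 * (X : ℝ) ^ 2 * dm x y) :=
          mul_le_mul_of_nonneg_right k2 (by positivity)
      _ ≤ 4 * (pp Q J x y * ((A : ℝ) ^ 2 * (X : ℝ) ^ 2 * dm x y)) := by linarith
      _ = pp Q J x y * (4 * (A : ℝ) ^ 2 * dm x y * (X : ℝ) ^ 2) := by ring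
      _ ≤ pp Q J x y * (4 * (A : ℝ) ^ 2 * dm x y * (B : ℝ) ^ 2) := by
          apply mul_le_mul_of_nonneg_left _ hp0
          apply mul_le_mul_of_nonneg_left hX2 (by positivity)
      _ = pp Q J x y * ((2 * (A : ℝ)) ^ 2 * (B : ℝ) ^ 2 * dm x y) := by ring
      _ ≤ _ := k3

/-- the change of coordinates -/
lemma tm_mv {δ : ℝ} (hδ : 0 ≤ δ) (W X : ℕ) {s Cg : ℕ} (hCg : 1 ≤ Cg) {x y x' y' : Fin s → ℤ}
    (hg : gm x' y' = gm x y) (hd : dm x y ≤ Cg * dm x' y') (h0 : dm x y ≠ 0) :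
    tm δ W X (x', y') ≤ (Cg : ℝ) ^ 2 * tm δ W X (x, y) := by
  have hCr : (1 : ℝ) ≤ Cg := by exact_mod_cast hCg
  have hd0 : (0 : ℝ) < dm x y := by exact_mod_cast Nat.pos_of_ne_zero h0
  have hdr : (dm x y : ℝ) ≤ Cg * dm x' y' := by exact_mod_cast hd
  have hd0' : (0 : ℝ) < dm x' y' := by
    by_contra hcon
    push Not at hcon
    have : (Cg : ℝ) * dm x' y' ≤ 0 := mul_nonpos_of_nonneg_of_nonpos (by linarith) hcon
    linarith
  have h1 : (1 : ℝ) / dm x' y' ≤ Cg * (1 / dm x y) := by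
    rw [mul_one_div, div_le_div_iff₀ hd0' hd0]
    linarith
  have h1' : (0 : ℝ) ≤ 1 / dm x' y' := by positivity
  unfold tm
  dsimp only
  rw [hg]
  split_ifs with h
  · have e1 : (gm x y : ℝ) / dm x' y' * X ^ 2 * (δ * X ^ 2 / dm x' y') =
        (gm x y * X ^ 2 * (δ * X ^ 2)) * (1 / dm x' y') ^ 2 := by
      field_simp
    have e2 : (Cg : ℝ) ^ 2 * ((gm x y : ℝ) / dm x y * X ^ 2 * (δ * X ^ 2 / dm x y)) =
        (gm x y * X ^ 2 * (δ * X ^ 2)) * (Cg * (1 / dm x y)) ^ 2 := by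
      field_simp
    rw [e1, e2]
    apply mul_le_mul_of_nonneg_left _ (by positivity)
    exact pow_le_pow_left₀ h1' h1 2
  · have e1 : (gm x y : ℝ) / dm x' y' * X ^ 2 * 1 = (gm x y * X ^ 2) * (1 / dm x' y') := by
      field_simp
    have e2 : (Cg : ℝ) ^ 2 * ((gm x y : ℝ) / dm x y * X ^ 2 * 1) =
        (gm x y * X ^ 2) * ((Cg : ℝ) * (Cg * (1 / dm x y))) := by
      field_simp
    rw [e1, e2]
    apply mul_le_mul_of_nonneg_left _ (by positivity)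
    have h2 : (0 : ℝ) ≤ Cg * (1 / dm x y) := by positivity
    calc (1 : ℝ) / dm x' y' ≤ Cg * (1 / dm x y) := h1
      _ ≤ (Cg : ℝ) * (Cg * (1 / dm x y)) := by nlinarith

theorem pf_SE1 (hSE0 : T_SE0) (hSXB : T_SXB) (hGDT : T_GDT) (hPB1 : T_PB1) (hDI1 : T_DI1)
    (hECD : T_ECD) (hPKP : T_PKP) (hDEP : T_DEP) : T_SE1 := by
  classical
  intro n F N m0 K hn
  obtain ⟨K₁, K₂, hK₁, hGv⟩ := hSXB n F N m0 K
  obtain ⟨Cg, hCg, hG⟩ := hGDT (n + 2) N.T N.Ti N.h1 N.h2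
  obtain ⟨CS, hCS, X1, hS⟩ := hSE0 n F N m0 K hn
  obtain ⟨CB, hCB, hPB⟩ := hPB1 (n + 2) K₂
  obtain ⟨CE, hCE, X2, hE⟩ := hECD n F N m0 K hn
  refine ⟨CB * (Cg : ℝ) ^ 2 * CS + CE * (2 * (K₂ : ℝ) ^ 2 + 1), 2 * K₁ ^ 4, max (max X1 X2) 2,
    by positivity, ?_⟩
  intro X D A J Q W T w _ δ hX hXA hXD hXJ hQ hW hWQ hTQ hWT hw hgw hδ0 hδ1 hT
  have hX1 : X1 ≤ X := le_trans (le_trans (le_max_left _ _) (le_max_left _ _)) hX
  have hX2 : X2 ≤ X := le_trans (le_trans (le_max_right _ _) (le_max_left _ _)) hX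
  have hX3 : 2 ≤ X := le_trans (le_max_right _ _) hX
  have hX4 : 1 ≤ X := by omega
  have hK4 : 1 ≤ K₁ ^ 4 := Nat.one_le_pow _ _ hK₁
  have hK14 : K₁ ≤ K₁ ^ 4 := by
    calc K₁ = K₁ ^ 1 := (pow_one _).symm
      _ ≤ K₁ ^ 4 := Nat.pow_le_pow_right hK₁ (by norm_num)
  have hK24 : K₁ ^ 2 ≤ K₁ ^ 4 := Nat.pow_le_pow_right hK₁ (by norm_num)
  have hBA : K₁ * X ≤ A := by
    calc K₁ * X ≤ 2 * K₁ ^ 4 * X := Nat.mul_le_mul_right _ (by omega)
      _ ≤ A := hXA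
  have hXB : X ≤ K₁ * X := Nat.le_mul_of_pos_left _ hK₁
  have hA : 1 ≤ A := by omega
  have hBD : 2 * (K₁ * X) ^ 2 ≤ D * A := by
    calc 2 * (K₁ * X) ^ 2 = 2 * K₁ ^ 2 * X ^ 2 := by ring
      _ ≤ 2 * K₁ ^ 4 * X ^ 2 := Nat.mul_le_mul_right _ (by omega)
      _ ≤ D * A := hXD
  have hBJ : 2 * (K₁ * X) ^ 4 ≤ J := by
    calc 2 * (K₁ * X) ^ 4 = 2 * K₁ ^ 4 * X ^ 4 := by ring
      _ ≤ J := hXJ
  have hB1 : 1 ≤ K₁ * X := le_trans hX4 hXB
  have hB24 : (K₁ * X) ^ 2 ≤ (K₁ * X) ^ 4 := Nat.pow_le_pow_right hB1 (by norm_num)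
  have hB4 : 1 ≤ (K₁ * X) ^ 4 := Nat.one_le_pow _ _ hB1
  have hBJ2 : (K₁ * X) ^ 2 ≤ J := by omega
  have hJ1 : 1 ≤ J := by omega
  have hAr : (0 : ℝ) < A := by exact_mod_cast hA
  have hXr : (0 : ℝ) < X := by exact_mod_cast hX4
  have hX2r : (2 : ℝ) ≤ X := by exact_mod_cast hX3
  have hL : 0 < Real.log X := Real.log_pos (by linarith)
  have hwr : (1 : ℝ) ≤ w := by exact_mod_cast hw
  rw [← Finset.sum_product' (f := fun x y => pk Q J W T x y)]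
  rw [← Finset.sum_filter_add_sum_filter_not (SX N m0 K D X ×ˢ SX N m0 K D X)
    (fun q => dm q.1 q.2 ≠ 0)]
  -- the dependent pairs
  have hdep := se1_dep hDI1 hPKP hDEP (SX N m0 K D X) (hGv D X) hA hBA hQ hBJ2 hJ1 hW hWQ hTQ hWT
    hX4 hXB
  have hcardS : ((SX N m0 K D X).card : ℝ) ≤ CE * (X : ℝ) ^ n / Real.log X := by
    refine le_trans ?_ (hE X hX2)
    have : (SX N m0 K D X).card ≤ (EX N m0 K X).card := by
      unfold SX
      exact (Finset.card_filter_le _ _).trans Finset.card_image_le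
    exact_mod_cast this
  have hpow : (X : ℝ) ^ n = (X : ℝ) ^ (n - 2) * (X : ℝ) ^ 2 := by
    rw [← pow_add]
    congr 1
    omega
  set M : ℝ := (X : ℝ) ^ (n - 2) / (A * Real.log X) with hM
  have hM0 : 0 ≤ M := by positivity
  have hdep2 : ∑ q ∈ (SX N m0 K D X ×ˢ SX N m0 K D X).filter (fun q => ¬ dm q.1 q.2 ≠ 0),
      pk Q J W T q.1 q.2 ≤ CE * (2 * (K₂ : ℝ) ^ 2 + 1) * M := by
    refine hdep.trans ?_
    calc ((SX N m0 K D X).card : ℝ) * ((2 * (K₂ : ℝ) ^ 2 + 1) / (A * (X : ℝ) ^ 2))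
        ≤ (CE * (X : ℝ) ^ n / Real.log X) * ((2 * (K₂ : ℝ) ^ 2 + 1) / (A * (X : ℝ) ^ 2)) :=
          mul_le_mul_of_nonneg_right hcardS (by positivity)
      _ = CE * (2 * (K₂ : ℝ) ^ 2 + 1) * M := by
          rw [hM, hpow]
          field_simp
  -- the independent pairs
  set P := (SX N m0 K D X ×ˢ SX N m0 K D X).filter (fun q => dm q.1 q.2 ≠ 0) with hP
  set P' := (EX N m0 K X ×ˢ EX N m0 K X).filter
    (fun q => Prm q.1 ∧ Prm q.2 ∧ dm q.1 q.2 ≠ 0) with hP'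
  set Φ : ((Fin (n + 2) → ℤ) × (Fin (n + 2) → ℤ)) → ((Fin (n + 2) → ℤ) × (Fin (n + 2) → ℤ)) :=
    fun q => (mv N.T q.1, mv N.T q.2) with hΦ
  have hterm : ∀ q ∈ P, pk Q J W T q.1 q.2 ≤
      CB / ((A : ℝ) ^ 2 * (X : ℝ) ^ 4) * tm δ W X q := by
    intro q hq
    rw [hP, Finset.mem_filter, Finset.mem_product] at hq
    exact se1_ind hCB hPKP hPB q.1 q.2 hA hBD hQ hBJ hJ1 hW hWQ hTQ hWT (hGv D X _ hq.1.1)
      (hGv D X _ hq.1.2) hq.2 hX4 hXB hT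
  have hsub : P ⊆ P'.image Φ := by
    intro q hq
    rw [hP, Finset.mem_filter, Finset.mem_product] at hq
    obtain ⟨⟨h1, h2⟩, h3⟩ := hq
    unfold SX at h1 h2
    rw [Finset.mem_filter, Finset.mem_image] at h1 h2
    obtain ⟨⟨e1, he1, hm1⟩, hp1, _⟩ := h1
    obtain ⟨⟨e2, he2, hm2⟩, hp2, _⟩ := h2
    rw [Finset.mem_image]
    refine ⟨(e1, e2), ?_, ?_⟩
    · rw [hP', Finset.mem_filter, Finset.mem_product]
      refine ⟨⟨he1, he2⟩, ?_, ?_, ?_⟩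
      · rw [← hm1] at hp1
        exact prm_of_mv hp1
      · rw [← hm2] at hp2
        exact prm_of_mv hp2
      · intro h0
        apply h3
        rw [← hm1, ← hm2]
        have := (hG e1 e2).2.1
        have h0' : dm e1 e2 = 0 := h0
        rw [h0', mul_zero] at this
        omega
    · rw [hΦ]
      exact Prod.ext hm1 hm2
  have hinj : Function.Injective Φ := by
    intro a b hab
    rw [hΦ] at hab
    simp only [Prod.mk.injEq] at hab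
    exact Prod.ext (mv_inj N.h2 hab.1) (mv_inj N.h2 hab.2)
  have hSE := hS X W w δ hX1 hw hgw hδ0 hδ1
  have hind : ∑ q ∈ P, pk Q J W T q.1 q.2 ≤
      CB * (Cg : ℝ) ^ 2 * CS * (M ^ 2 * (1 / w + δ + 1 / Real.log X)) := by
    calc ∑ q ∈ P, pk Q J W T q.1 q.2
        ≤ ∑ q ∈ P, CB / ((A : ℝ) ^ 2 * (X : ℝ) ^ 4) * tm δ W X q := Finset.sum_le_sum hterm
      _ = CB / ((A : ℝ) ^ 2 * (X : ℝ) ^ 4) * ∑ q ∈ P, tm δ W X q := by rw [Finset.mul_sum]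
      _ ≤ CB / ((A : ℝ) ^ 2 * (X : ℝ) ^ 4) *
          ((Cg : ℝ) ^ 2 * (CS * ((X : ℝ) ^ n / Real.log X) ^ 2 *
            (1 / w + δ + 1 / Real.log X))) := by
          apply mul_le_mul_of_nonneg_left _ (by positivity)
          calc ∑ q ∈ P, tm δ W X q
              ≤ ∑ q ∈ P'.image Φ, tm δ W X q :=
                Finset.sum_le_sum_of_subset_of_nonneg hsub fun q _ _ => tm_nonneg hδ0 W X q
            _ = ∑ q ∈ P', tm δ W X (Φ q) := Finset.sum_image fun a _ b _ h => hinj h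
            _ ≤ ∑ q ∈ P', (Cg : ℝ) ^ 2 * tm δ W X q := by
                apply Finset.sum_le_sum
                intro q hq
                rw [hP', Finset.mem_filter] at hq
                obtain ⟨g1, g2, g3⟩ := hG q.1 q.2
                exact tm_mv hδ0 W X hCg g1 g3 hq.2.2.2
            _ = (Cg : ℝ) ^ 2 * ∑ q ∈ P', tm δ W X q := by rw [Finset.mul_sum]
            _ ≤ _ := by
                apply mul_le_mul_of_nonneg_left _ (by positivity)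
                exact hSE
      _ = CB * (Cg : ℝ) ^ 2 * CS * (M ^ 2 * (1 / w + δ + 1 / Real.log X)) := by
          rw [hM, hpow]
          field_simp
  have hpos1 : (0 : ℝ) ≤ M ^ 2 * (1 / w + δ + 1 / Real.log X) := by positivity
  calc _ ≤ _ := add_le_add hind hdep2
    _ ≤ (CB * (Cg : ℝ) ^ 2 * CS + CE * (2 * (K₂ : ℝ) ^ 2 + 1)) *
        (M ^ 2 * (1 / w + δ + 1 / Real.log X) + M) := by
        have p1 : (0 : ℝ) ≤ CE * (2 * (K₂ : ℝ) ^ 2 + 1) *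
          (M ^ 2 * (1 / w + δ + 1 / Real.log X)) := by positivity
        have p2 : (0 : ℝ) ≤ CB * (Cg : ℝ) ^ 2 * CS * M := by positivity
        linarith

end Pool.Agent.H4.HFQ
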